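import Pool.Agent.Lib.MP_7f190d_al.H34.Common

/-!
# MP_7f190d_al, module S-E: S10, the new stage
-/

set_option autoImplicit false

namespace Pool.Agent.Lib.MP_7f190d_al

namespace H34

lemma FO_map {Γ Γ' : Type} [Group Γ] [Group Γ'] (π : Γ →* Γ') {z g : Γ} (h : FO z g) :
    FO (π z) (π g) := by
  obtain ⟨m, hm, h⟩ := h
  rw [Subgroup.mem_zpowers_iff] at h
  obtain ⟨k, hk⟩ := h
  exact ⟨m, hm, Subgroup.mem_zpowers_iff.mpr ⟨k, by rw [← map_zpow, hk, map_pow]⟩⟩

theorem s10 : S1Statement → S3Statement → S4Statement → S7Statement → S8Statement →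
    S9Statement → ZStatement → S10Statement := by
  intro h1 h3 h4 h7 h8 h9 hZ C
  obtain ⟨hcen, hinf, hiso, htriv, -⟩ := h1 C
  have hS' := C.hS'
  have hD := C.st.hD
  have hpre : PreStage C.Γ' (C.π C.z) C.V' C.M' C.D (10000 * C.D) C.S C.T :=
    { hD := C.st.hD
      hL := le_rfl
      ne := by
        obtain ⟨x⟩ := C.st.ne
        exact ⟨C.p (C.base x)⟩
      central := hcen
      inf := hinf
      iso := hiso
      ztriv := htriv
      hyp := C.hyp'
      A1 := fun g₁ g₂ x y a b c d e => h8 C g₁ g₂ x y a b c d e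
      A2 := fun g x y a b c d => h7 C g x y a b c d
      A3 := h3 C }
  refine ⟨{ toPreStage := hpre, C1 := ?_, C3 := ?_ }, ?_⟩
  · intro c hc
    by_cases hfo : FO (C.π C.z) c
    · exact h9 C c hc hfo
    · exact hZ C.Γ' (C.π C.z) C.V' C.M' C.D (10000 * C.D) C.S C.T hpre c hfo
  · intro g hg hfo
    exact (h4 C g hg hfo).2
  · intro x₀
    refine ⟨?_, ?_, ?_⟩
    · intro g hg hne
      have a1 := C.R_inj g ((C.quot.ker g).mp hg) hne (C.base x₀) (fun j => C.base_apex_ne x₀ j)
        (C.ρ + 1) (fun j => C.base_apex x₀ j)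
      rw [C.base_eqv] at a1
      have a2 := C.base_upper x₀ (g • x₀)
      have a3 : C.S * 2 ≤ C.S * C.MV.d (C.base x₀) (C.base (g • x₀)) :=
        Nat.mul_le_mul_left _ (by omega)
      omega
    · intro g
      have a1 := C.quot.dle (C.base x₀) (g • C.base x₀)
      rw [C.quot.eqv, C.base_eqv] at a1
      have a2 := C.base_upper x₀ (g • x₀)
      rcases Nat.eq_zero_or_pos (C.MV.d (C.base x₀) (C.base (g • x₀))) with h0 | h0
      · omega
      · obtain ⟨m, hm⟩ : ∃ m, C.MV.d (C.base x₀) (C.base (g • x₀)) = m + 1 :=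
          ⟨_, (Nat.succ_pred_eq_of_pos h0).symm⟩
        rw [hm] at a1 a2
        have a3 : 2 * m ≤ C.S * m := Nat.mul_le_mul_right _ (by omega)
        have a4 : C.S * (m + 1) = C.S * m + C.S := by ring
        omega
    · intro g hg
      by_cases hfo : FO C.z g
      · exact FO_map C.π hfo
      · obtain ⟨j, a, b, hab⟩ := C.js.short g hfo ⟨x₀, by omega⟩
        have hn : 1 ≤ C.n := C.hn.pos
        refine ⟨C.n, hn, ?_⟩
        have e1 : C.π (C.h j) ^ C.n = C.π C.z := by
          have := (C.quot.ker _).mpr (C.R_rel j)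
          rw [map_mul, map_pow, map_inv, mul_inv_eq_one] at this
          exact this
        have e2 : C.π g = C.π (C.h j) ^ a * C.π C.z ^ b := by
          rw [hab, map_mul, map_zpow, map_zpow]
        have k1 : Commute (C.π (C.h j) ^ a) (C.π C.z ^ b) :=
          ((show Commute (C.π (C.h j)) (C.π C.z) from hcen _).zpow_left a).zpow_right b
        rw [e2, k1.mul_pow]
        refine Subgroup.mul_mem _ ?_ ?_
        · rw [← zpow_natCast, ← zpow_mul, mul_comm, zpow_mul, zpow_natCast, e1]
          exact Subgroup.zpow_mem_zpowers _ _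
        · exact Subgroup.pow_mem _ (Subgroup.zpow_mem_zpowers _ _) _

end H34

end Pool.Agent.Lib.MP_7f190d_al
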