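import Pool.Agent.Lib.MP_7f190d_al.H34.Common

/-!
# MP_7f190d_al, module S-D: S7, elements of finite order (A2) for the quotient
-/

set_option autoImplicit false

namespace Pool.Agent.Lib.MP_7f190d_al

namespace H34

theorem s7 : S1Statement → S2Statement → S4Statement → S6Statement → W3Statement →
    S7Statement := by
  intro h1 h2 h4 h6 w3 C g x y hg hfo hx hy
  by_contra hcon
  rw [not_lt] at hcon
  have hS := C.hS
  have hS' := C.hS'
  have hD := C.st.hD
  obtain ⟨-, -, hiso, -, -, hstab, hfix, hlift, -, -, hgeo⟩ := h1 C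
  by_cases hap : ∃ j, g • C.p (C.apex j) = C.p (C.apex j)
  · obtain ⟨j, hj⟩ := hap
    have a1 := h6 C g j x hg hj hx
    have a2 := h6 C g j y hg hj hy
    have t := C.M'.tri x (C.p (C.apex j)) y
    have s := C.M'.symm (C.p (C.apex j)) y
    omega
  · have hap' : ∀ j, g • C.p (C.apex j) ≠ C.p (C.apex j) := fun j hj => hap ⟨j, hj⟩
    obtain ⟨a, f, -, hf, hfz, hffo, hfa, hga⟩ := ((h4 C g hg hfo).1).resolve_left hap
    -- a point which is far from `p a`
    obtain ⟨v, hv, hvd⟩ : ∃ v, C.M'.d v (g • v) ≤ 10000 * C.D ∧ C.S ≤ 2 * C.M'.d (C.p a) v := by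
      by_cases hh : C.S ≤ 2 * C.M'.d (C.p a) x
      · exact ⟨x, hx, hh⟩
      · refine ⟨y, hy, ?_⟩
        have t := C.M'.tri x (C.p a) y
        have s := C.M'.symm (C.p a) x
        omega
    have hpa : C.M'.d (C.p a) (g • C.p a) ≤ 10000 * C.D := by
      have := hga 1
      rw [zpow_one] at this
      omega
    obtain ⟨γ', hγ'⟩ := C.M'.exists_isGeod (C.p a) v
    have hm : ∀ i ≤ C.M'.d (C.p a) v, C.M'.d (γ' i) (g • γ' i) ≤ 10004 * C.D := fun i hi =>
      mid C h1 g (C.p a) v (γ' i) (hγ'.btw hi) hpa hv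
    obtain ⟨γ, hγ0, hγp, hγd⟩ := hgeo a v γ' hγ'
    have hfar : ∀ i ≤ C.M'.d (C.p a) v, ∀ j, 10004 * C.D + 2 ≤ C.MV.d (γ i) (C.apex j) := by
      intro i hi j
      have t := C.quot.dle (γ i) (C.apex j)
      rw [hγp i hi] at t
      exact le_trans (no_apex C h1 g hap' (γ' i) (hm i hi) j) t
    have hd₁ : ∀ i ≤ C.M'.d (C.p a) v, C.MV.d (γ i) (f • γ i) ≤ 10004 * C.D := by
      refine h2 C g f _ γ hf ?_ hfar ?_ ?_
      · intro i hi
        have := hγd i (i + 1) (by omega) (by omega)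
        omega
      · intro i hi
        rw [hγp i hi]
        exact hm i hi
      · rw [hγ0]
        have := hfa 1
        rw [zpow_one] at this
        omega
    obtain ⟨i, j, hi, hj, x₁, x₂, hx₁, hx₂, hd⟩ := base_ends C γ _ hγd (by omega)
    have hbig := num_aux (m := C.M'.d (C.p a) v - (4 * C.ρ + 2)) hS hS' (by omega) hd
    have e1 := hd₁ i hi
    have e2 := hd₁ j hj
    rw [hx₁] at e1
    rw [hx₂] at e2
    have := w3 C.Γ C.z C.X C.M C.D (10000 * C.D) C.S C.T C.st.toPreStage f x₁ x₂ _ hfz hffo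
      (disp_base C f x₁ e1) (disp_base C f x₂ e2)
    omega

end H34

end Pool.Agent.Lib.MP_7f190d_al
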