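import Pool.Agent.Lib.MP_7f190d_al.H34.Common

/-!
# MP_7f190d_al, module S-D: S8, the commutation lemma (A1) for the quotient
-/

set_option autoImplicit false

namespace Pool.Agent.Lib.MP_7f190d_al

namespace H34

theorem s8 : S1Statement → S2Statement → W2Statement → S8Statement := by
  intro h1 h2 w2 C g₁ g₂ x y hx1 hy1 hx2 hy2 hxy
  obtain ⟨-, -, hiso, -, -, hstab, hfix, hlift, -, -, hgeo⟩ := h1 C
  obtain ⟨γ', hγ'⟩ := C.M'.exists_isGeod x y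
  have hm1 : ∀ i ≤ C.M'.d x y, C.M'.d (γ' i) (g₁ • γ' i) ≤ 10004 * C.D := fun i hi =>
    mid C h1 g₁ x y (γ' i) (hγ'.btw hi) hx1 hy1
  have hm2 : ∀ i ≤ C.M'.d x y, C.M'.d (γ' i) (g₂ • γ' i) ≤ 10004 * C.D := fun i hi =>
    mid C h1 g₂ x y (γ' i) (hγ'.btw hi) hx2 hy2
  by_cases hap : ∃ i ≤ C.M'.d x y, ∃ j, C.M'.d (γ' i) (C.p (C.apex j)) ≤ 10004 * C.D + 1
  · -- both elements fix an apex
    obtain ⟨i, hi, j, hj⟩ := hap
    obtain ⟨a, ha⟩ := Subgroup.mem_zpowers_iff.mp (hstab g₁ j (hfix g₁ j _ hj (hm1 i hi)))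
    obtain ⟨b, hb⟩ := Subgroup.mem_zpowers_iff.mp (hstab g₂ j (hfix g₂ j _ hj (hm2 i hi)))
    refine CM_of_commute ?_
    rw [← ha, ← hb, ← zpow_add, ← zpow_add, add_comm]
  · have hap' : ∀ i ≤ C.M'.d x y, ∀ j, 10004 * C.D + 2 ≤ C.M'.d (γ' i) (C.p (C.apex j)) := by
      intro i hi j
      by_contra hcon
      exact hap ⟨i, hi, j, by omega⟩
    obtain ⟨a, ha⟩ := C.quot.psurj x
    subst ha
    obtain ⟨γ, hγ0, hγp, hγd⟩ := hgeo a y γ' hγ'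
    have hS := C.hS
    have hS' := C.hS'
    have hfar : ∀ i ≤ C.M'.d (C.p a) y, ∀ j, 10004 * C.D + 2 ≤ C.MV.d (γ i) (C.apex j) := by
      intro i hi j
      have t := C.quot.dle (γ i) (C.apex j)
      rw [hγp i hi] at t
      exact le_trans (hap' i hi j) t
    have hpath : ∀ i < C.M'.d (C.p a) y, C.MV.d (γ i) (γ (i + 1)) ≤ 1 := by
      intro i hi
      have := hγd i (i + 1) (by omega) (by omega)
      omega
    -- the lifts
    have key : ∀ g : C.Γ', C.M'.d (C.p a) (g • C.p a) ≤ 10000 * C.D →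
        (∀ i ≤ C.M'.d (C.p a) y, C.M'.d (γ' i) (g • γ' i) ≤ 10004 * C.D) →
        ∃ f : C.Γ, C.π f = g ∧
          ∀ i ≤ C.M'.d (C.p a) y, C.MV.d (γ i) (f • γ i) ≤ 10004 * C.D := by
      intro g hg hgm
      obtain ⟨f, hf, hfa⟩ := hlift g a
      refine ⟨f, hf, h2 C g f _ γ hf hpath hfar ?_ ?_⟩
      · intro i hi
        rw [hγp i hi]
        exact hgm i hi
      · rw [hγ0, hfa]
        omega
    obtain ⟨f₁, hf₁, hd₁⟩ := key g₁ hx1 hm1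
    obtain ⟨f₂, hf₂, hd₂⟩ := key g₂ hx2 hm2
    obtain ⟨i, j, hi, hj, x₁, x₂, hx₁, hx₂, hd⟩ := base_ends C γ _ hγd (by omega)
    have hbig := num_aux (m := C.M'.d (C.p a) y - (4 * C.ρ + 2)) hS hS' (by omega) hd
    have e1 := hd₁ i hi
    have e2 := hd₁ j hj
    have e3 := hd₂ i hi
    have e4 := hd₂ j hj
    rw [hx₁] at e1 e3
    rw [hx₂] at e2 e4
    have hcm := w2 C.Γ C.z C.X C.M C.D (10000 * C.D) C.S C.T C.n C.hn C.st f₁ f₂ x₁ x₂ _
      (disp_base C f₁ x₁ e1) (disp_base C f₁ x₂ e2) (disp_base C f₂ x₁ e3) (disp_base C f₂ x₂ e4)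
      hbig
    have := CM_map C.π hcm
    rwa [hf₁, hf₂] at this

end H34

end Pool.Agent.Lib.MP_7f190d_al
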