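import Pool.Agent.Lib.MP_7f190d_al.Interfaces
import Pool.Agent.Lib.MP_7f190d_al.Basic

/-!
# MP_7f190d_al, modules S-D and S-E (S7, S8, S9, S10): common lemmas
-/

set_option autoImplicit false

namespace Pool.Agent.Lib.MP_7f190d_al

namespace H34

lemma CM_of_commute {Γ : Type} [Group Γ] {z a b : Γ} (h : a * b = b * a) : CM z a b := by
  unfold CM
  have e : a * b * a⁻¹ * b⁻¹ = 1 := by rw [h]; group
  rw [e]
  exact Subgroup.one_mem _

lemma CM_map {Γ Γ' : Type} [Group Γ] [Group Γ'] (π : Γ →* Γ') {z a b : Γ} (h : CM z a b) :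
    CM (π z) (π a) (π b) := by
  unfold CM at *
  rw [Subgroup.mem_zpowers_iff] at *
  obtain ⟨k, hk⟩ := h
  exact ⟨k, by rw [← map_zpow, hk]; simp only [map_mul, map_inv]⟩

lemma zpow_smul_fix {Γ V : Type} [Group Γ] [MulAction Γ V] {z : Γ} {v : V} (h : z • v = v)
    (k : ℤ) : z ^ k • v = v := by
  have h1 : z ∈ MulAction.stabilizer Γ v := h
  exact Subgroup.zpow_mem _ h1 k

variable (C : Ctx)

lemma kappa_le : 10004 * C.D ≤ C.ρ := by
  have := C.hρ
  omega

/-- all points of a geodesic between two points which are moved little are moved little. -/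
lemma mid (h1 : S1Statement) (g : C.Γ') (x y p : C.V') (hp : C.M'.Btw x p y)
    (hx : C.M'.d x (g • x) ≤ 10000 * C.D) (hy : C.M'.d y (g • y) ≤ 10000 * C.D) :
    C.M'.d p (g • p) ≤ 10004 * C.D := by
  have hiso : Iso C.Γ' C.M' := (h1 C).2.2.1
  have hp' : C.M'.Btw (g • x) (g • p) (g • y) := by
    unfold GMet.Btw at *
    rw [hiso g, hiso g, hiso g]; exact hp
  have t1 := C.M'.tri x y (g • y)
  have t2 := C.M'.tri y x (g • x)
  have s1 := C.M'.symm y x
  have := GMet.B3 C.V' C.M' C.D C.hyp' x y (g • x) (g • y) p (g • p) (10000 * C.D) hp hp'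
    (hiso g x p).symm (hiso g p y).symm (by omega) (by omega) (by omega) (by omega)
  omega

/-- if an element fixes no apex, then no apex is close to the points which it moves little. -/
lemma no_apex (h1 : S1Statement) (g : C.Γ')
    (hg : ∀ j, g • C.p (C.apex j) ≠ C.p (C.apex j)) (v : C.V')
    (hv : C.M'.d v (g • v) ≤ 10004 * C.D) (j : C.J) :
    10004 * C.D + 2 ≤ C.M'.d v (C.p (C.apex j)) := by
  by_contra hcon
  exact hg j ((h1 C).2.2.2.2.2.2.1 g j v (by omega) hv)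

/-- base vertices near the ends of a long geodesic -/
lemma base_ends (γ : ℕ → C.V) (N : ℕ)
    (hγ : ∀ i j, i ≤ j → j ≤ N → C.MV.d (γ i) (γ j) = j - i) (hN : 4 * C.ρ + 2 ≤ N) :
    ∃ i j, i ≤ N ∧ j ≤ N ∧ ∃ x₁ x₂, γ i = C.base x₁ ∧ γ j = C.base x₂ ∧
      C.S * (N - (4 * C.ρ + 2)) ≤ C.M.d x₁ x₂ + (C.S - 1) := by
  have hd : C.MV.d (γ 0) (γ N) = N := by
    have := hγ 0 N (by omega) le_rfl
    omega
  have hgeo : C.MV.IsGeod γ (γ 0) (γ N) := by
    refine ⟨rfl, by rw [hd], ?_⟩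
    intro i j hij hj
    rw [hd] at hj
    exact hγ i j hij hj
  have hd' : C.MV.d (γ N) (γ 0) = N := by rw [C.MV.symm]; exact hd
  have hgeo' : C.MV.IsGeod (fun i => γ (N - i)) (γ N) (γ 0) := by
    refine ⟨by simp, by simp [hd'], ?_⟩
    intro i j hij hj
    rw [hd'] at hj
    have := hγ (N - j) (N - i) (by omega) (by omega)
    show C.MV.d (γ (N - i)) (γ (N - j)) = j - i
    rw [C.MV.symm, this]
    omega
  obtain ⟨i, hi, x₁, hx₁⟩ := C.geod_base (γ 0) (γ N) (by omega) γ hgeo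
  obtain ⟨j, hj, x₂, hx₂⟩ := C.geod_base (γ N) (γ 0) (by omega) _ hgeo'
  refine ⟨i, N - j, by omega, by omega, x₁, x₂, hx₁, hx₂, ?_⟩
  have h1 := hγ i (N - j) (by omega) (by omega)
  have hx₂' : γ (N - j) = C.base x₂ := hx₂
  rw [hx₁, hx₂'] at h1
  have h2 := C.base_upper x₁ x₂
  rw [h1] at h2
  have h3 : C.S * (N - (4 * C.ρ + 2)) ≤ C.S * (N - j - i) := Nat.mul_le_mul_left _ (by omega)
  omega

/-- the displacement of a base vertex -/
lemma disp_base (f : C.Γ) (x : C.X)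
    (h : C.MV.d (C.base x) (f • C.base x) ≤ 10004 * C.D) :
    C.M.d x (f • x) ≤ 10004 * C.D * 2 ^ (10004 * C.D) * C.S := by
  rw [C.base_eqv] at h
  exact C.base_lower x (f • x) (10004 * C.D) (kappa_le C) h

lemma num_aux {S ρ E D m d : ℕ} (hS : 100 * (ρ + E + 10) ≤ S) (hD : 70000 * D ≤ S)
    (hm : 50 * (ρ + E + 10) ≤ m + (4 * ρ + 2)) (hd : S * m ≤ d + (S - 1)) :
    S + 10 * (E * S) + 1000 * D ≤ d := by
  have h1 : S * (10 * E + 3) ≤ S * m := Nat.mul_le_mul_left _ (by omega)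
  have h2 : S * (10 * E + 3) = 10 * (E * S) + 3 * S := by ring
  omega

end H34

end Pool.Agent.Lib.MP_7f190d_al
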