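import Pool.Agent.Lib.MP_7f190d_al.H34.Common

/-!
# MP_7f190d_al, module S-D: S9, centralizers of the elements of finite order of the quotient
-/

set_option autoImplicit false

namespace Pool.Agent.Lib.MP_7f190d_al

namespace H34

theorem s9 : S1Statement → S2Statement → S4Statement → S5Statement → S9Statement := by
  intro h1 h2 h4 h5 C c hc hfo
  have hD := C.st.hD
  obtain ⟨hcen, -, hiso, htriv, -, hstab, hfix, hlift, huniq, -, hgeo⟩ := h1 C
  by_cases hap : ∃ j, c • C.p (C.apex j) = C.p (C.apex j)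
  · -- `c` fixes an apex
    obtain ⟨j, hj⟩ := hap
    refine ⟨C.π (C.h j), fun g => ⟨?_, ?_⟩⟩
    · intro hcm
      obtain ⟨s, hs⟩ := Subgroup.mem_zpowers_iff.mp hcm
      -- `c` fixes the image of the apex
      have e1 : g * c = C.π C.z ^ s * (c * g) := by rw [hs]; group
      have e2 : c • (g • C.p (C.apex j)) = g • C.p (C.apex j) := by
        have e3 : (g * c) • C.p (C.apex j) = g • C.p (C.apex j) := by rw [mul_smul, hj]
        have e4 : (g * c) • C.p (C.apex j) = c • (g • C.p (C.apex j)) := by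
          rw [e1, mul_smul, zpow_smul_fix (htriv _), mul_smul]
        rw [← e4, e3]
      obtain ⟨G, hG⟩ := C.quot.surj g
      have e5 : g • C.p (C.apex j) = C.p (C.apex (G • j)) := by
        rw [← hG, ← C.quot.eqv, C.apex_eqv]
      rw [e5] at e2
      have e6 := h5 C c (G • j) j hc e2 hj
      rw [← e5] at e6
      obtain ⟨i, hi⟩ := Subgroup.mem_zpowers_iff.mp (hstab g j e6)
      exact ⟨i, 0, by rw [hi, zpow_zero, mul_one]⟩
    · rintro ⟨i, s, rfl⟩
      obtain ⟨b, hb⟩ := Subgroup.mem_zpowers_iff.mp (hstab c j hj)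
      refine CM_of_commute ?_
      have k1 : Commute (C.π (C.h j) ^ i) c := by
        rw [← hb]
        exact ((Commute.refl _).zpow_left i).zpow_right b
      have k2 : Commute (C.π C.z ^ s) c := Commute.zpow_left (hcen c).symm s
      exact (k1.mul_left k2).eq
  · have hap' : ∀ j, c • C.p (C.apex j) ≠ C.p (C.apex j) := fun j hj => hap ⟨j, hj⟩
    obtain ⟨a, f, -, hf, hfz, -, hfa, hga⟩ := ((h4 C c hc hfo).1).resolve_left hap
    obtain ⟨k₀, hk₀⟩ := C.st.C1 f hfz
    refine ⟨C.π k₀, fun g => ⟨?_, ?_⟩⟩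
    · intro hcm
      obtain ⟨s, hs⟩ := Subgroup.mem_zpowers_iff.mp hcm
      have e1 : g * c = C.π C.z ^ s * (c * g) := by rw [hs]; group
      -- `c` moves `g • p a` by the same distance as `p a`
      have hpa : C.M'.d (C.p a) (c • C.p a) ≤ 4 * C.D + 3 := by
        have := hga 1
        rwa [zpow_one] at this
      have hgpa : C.M'.d (g • C.p a) (c • (g • C.p a)) ≤ 4 * C.D + 3 := by
        have e4 : (g * c) • C.p a = c • (g • C.p a) := by
          rw [e1, mul_smul, zpow_smul_fix (htriv _), mul_smul]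
        rw [← e4, mul_smul, hiso]
        exact hpa
      obtain ⟨γ', hγ'⟩ := C.M'.exists_isGeod (C.p a) (g • C.p a)
      have hm : ∀ i ≤ C.M'.d (C.p a) (g • C.p a), C.M'.d (γ' i) (c • γ' i) ≤ 10004 * C.D :=
        fun i hi => mid C h1 c (C.p a) (g • C.p a) (γ' i) (hγ'.btw hi) (by omega) (by omega)
      obtain ⟨γ, hγ0, hγp, hγd⟩ := hgeo a (g • C.p a) γ' hγ'
      have hfar : ∀ i ≤ C.M'.d (C.p a) (g • C.p a), ∀ j,
          10004 * C.D + 2 ≤ C.MV.d (γ i) (C.apex j) := by
        intro i hi j
        have t := C.quot.dle (γ i) (C.apex j)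
        rw [hγp i hi] at t
        exact le_trans (no_apex C h1 c hap' (γ' i) (hm i hi) j) t
      have hfa1 : C.MV.d a (f • a) ≤ 4 * C.D + 3 := by
        have := hfa 1
        rwa [zpow_one] at this
      have hd₁ : ∀ i ≤ C.M'.d (C.p a) (g • C.p a), C.MV.d (γ i) (f • γ i) ≤ 10004 * C.D := by
        refine h2 C c f _ γ hf ?_ hfar ?_ ?_
        · intro i hi
          have := hγd i (i + 1) (by omega) (by omega)
          omega
        · intro i hi
          rw [hγp i hi]
          exact hm i hi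
        · rw [hγ0]
          omega
      -- the end point of the lift is `G • a` with `π G = g`
      obtain ⟨G, hG, hGa⟩ : ∃ G : C.Γ, C.π G = g ∧
          γ (C.M'.d (C.p a) (g • C.p a)) = G • a := by
        obtain ⟨G₁, hG₁⟩ := C.quot.surj g
        obtain ⟨r, hr, hrd⟩ := C.quot.dex (γ (C.M'.d (C.p a) (g • C.p a))) (G₁ • a)
        have hz : C.M'.d (C.p (γ (C.M'.d (C.p a) (g • C.p a)))) (C.p (G₁ • a)) = 0 := by
          rw [hγp _ le_rfl, C.quot.eqv, hG₁, hγ'.2.1, C.M'.self]
        rw [hz] at hrd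
        refine ⟨r * G₁, ?_, ?_⟩
        · rw [map_mul, (C.quot.ker r).mpr hr, one_mul, hG₁]
        · rw [mul_smul]
          exact C.MV.eq0 _ _ hrd
      have hb1 := hd₁ _ le_rfl
      have hbfar := hfar _ le_rfl
      rw [hGa] at hb1 hbfar
      -- compare `G * f * G⁻¹` and `z ^ s * f`
      have hb2 : C.MV.d (G • a) ((G * f * G⁻¹) • (G • a)) ≤ 4 * C.D + 3 := by
        have e : (G * f * G⁻¹) • (G • a) = G • (f • a) := by
          rw [← mul_smul, ← mul_smul]
          congr 1
          group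
        rw [e, C.isoV]
        exact hfa1
      have hzf : (C.z ^ s * f) • (G • a) = f • (G • a) := by
        rw [mul_smul, zpow_smul_fix (C.zV _)]
      have heq : C.z ^ s * f = G * f * G⁻¹ := by
        refine huniq _ _ (G • a) ?_ hbfar ?_
        · rw [map_mul, map_zpow, map_mul, map_mul, map_inv, hf, hG]
          rw [e1]
          group
        · rw [hzf]
          have t := C.MV.tri (f • (G • a)) (G • a) ((G * f * G⁻¹) • (G • a))
          have s := C.MV.symm (f • (G • a)) (G • a)
          omega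
      have hcmG : CM C.z G f := by
        unfold CM
        rw [← heq]
        exact Subgroup.mem_zpowers_iff.mpr ⟨s, by group⟩
      obtain ⟨i, j, hij⟩ := (hk₀ G).mp hcmG
      exact ⟨i, j, by rw [← hG, hij, map_mul, map_zpow, map_zpow]⟩
    · rintro ⟨i, s, rfl⟩
      have := CM_map C.π ((hk₀ (k₀ ^ i * C.z ^ s)).mpr ⟨i, s, rfl⟩)
      rwa [hf, map_mul, map_zpow, map_zpow] at this

end H34

end Pool.Agent.Lib.MP_7f190d_al
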